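import Mathlib
import Pool.Agent.H22.KF.Defs
import Pool.Agent.H22.KF.Two

/-!
# MP_3fd637_nt : for `n = 2` the relative frequencies of the faces of continued fractions are not
proportional to their Arnold frequencies
-/

open MeasureTheory Filter Topology
open scoped ENNReal

namespace Pool.Agent.Results.MP_3fd637_nt.NotProportional

/-- **The negated form of Q1, with `n = 2`.**  There is no constant `c > 0` such that every
`2`-dimensional integer polytope `F` has an Arnold frequency `ν` and `μ(CF_2(F)) = c ν`.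
The second part gives the reason: the triangles
`F₁ = conv {(0,0,1), (2,0,1), (0,2,1)}` and `F₂ = conv {(0,0,1), (2,0,1), (0,3,1)}` have finite
positive relative frequencies `μ₁, μ₂`, and the ratio of the numbers of faces congruent to them of
the continued fractions of the matrices of `A_3(m)` tends to `μ₁ / (6 μ₂)` (the number `6` is the
order of the symmetry group of `F₁`), while proportionality would need the limit `μ₁ / μ₂`. -/
theorem result :
    (¬ ∃ c : ℝ, 0 < c ∧ ∀ F : Set (KF.Vec 2), KF.IsIntPolytope F →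
      Module.finrank ℝ (vectorSpan ℝ F) = 2 →
      ∃ ν : ℝ, Tendsto (fun m : ℕ => (KF.cntF F m : ℝ) / (KF.cntAll 2 m : ℝ)) atTop (𝓝 ν) ∧
        KF.moebius F = ENNReal.ofReal (c * ν)) ∧
    (0 < KF.moebius (n := 2) (convexHull ℝ {![0, 0, 1], ![2, 0, 1], ![0, 2, 1]}) ∧
      KF.moebius (n := 2) (convexHull ℝ {![0, 0, 1], ![2, 0, 1], ![0, 2, 1]}) < ∞ ∧
      0 < KF.moebius (n := 2) (convexHull ℝ {![0, 0, 1], ![2, 0, 1], ![0, 3, 1]}) ∧
      KF.moebius (n := 2) (convexHull ℝ {![0, 0, 1], ![2, 0, 1], ![0, 3, 1]}) < ∞ ∧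
      Tendsto (fun m : ℕ =>
          (KF.cntF (n := 2) (convexHull ℝ {![0, 0, 1], ![2, 0, 1], ![0, 2, 1]}) m : ℝ) /
          (KF.cntF (n := 2) (convexHull ℝ {![0, 0, 1], ![2, 0, 1], ![0, 3, 1]}) m : ℝ)) atTop
        (𝓝 ((KF.moebius (n := 2)
              (convexHull ℝ {![0, 0, 1], ![2, 0, 1], ![0, 2, 1]})).toReal /
          (6 * (KF.moebius (n := 2)
              (convexHull ℝ {![0, 0, 1], ![2, 0, 1], ![0, 3, 1]})).toReal)))) :=
  ⟨KF.t_MAIN.1, KF.two_faces.1.1, KF.two_faces.1.2, KF.two_faces.2.1.1, KF.two_faces.2.1.2,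
    KF.two_faces.2.2⟩

end Pool.Agent.Results.MP_3fd637_nt.NotProportional
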