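import Mathlib
import Pool.Agent.H22.KF.Defs
import Pool.Agent.H22.KF.Targets
import Pool.Agent.H22.KF.Final

/-!
# MP_3fd637_nt : the true law for relatively compact faces at lattice distance one, `n = 2`
-/

open MeasureTheory Filter Topology
open scoped ENNReal

namespace Pool.Agent.Results.MP_3fd637_nt.SymmetryLaw

/-- **The true law** (`n = 2`).  Let `poly S`, `poly S'` be lattice polygons in the plane
`x₂ = 1` whose sets of continued fractions `CF_2` are relatively compact, the second of positive
Moebius measure.  Then the ratio of the numbers of faces congruent to `poly S` and to `poly S'` of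
the continued fractions of the matrices of `A_3(m)` tends to the ratio of the Moebius measures
divided by the orders of the stabilisers. -/
theorem result :
    ∀ S S' : Finset (ℤ × ℤ), KF.Dim2 S → KF.Dim2 S' → KF.RelCpt S → KF.RelCpt S' →
    0 < KF.moebius (n := 2) (KF.poly S') →
    Tendsto (fun m : ℕ => (KF.cntF (n := 2) (KF.poly S) m : ℝ) /
        (KF.cntF (n := 2) (KF.poly S') m : ℝ)) atTop
      (𝓝 (((KF.moebius (n := 2) (KF.poly S)).toReal / (KF.stabF (n := 2) (KF.poly S)).ncard) /
        ((KF.moebius (n := 2) (KF.poly S')).toReal /
          (KF.stabF (n := 2) (KF.poly S')).ncard))) :=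
  KF.t_MAIN.2.2

end Pool.Agent.Results.MP_3fd637_nt.SymmetryLaw
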